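import Mathlib
import Pool.Agent.H.MP_5b0e2c_al.F

namespace Pool.Agent.H.MP_0dd7b8_al

open Function Pool.Agent.H.MP_5b0e2c_al Equiv

structure TF {X : Type} (E : X → X → Prop) : Prop where
  symm : ∀ x y, E x y → E y x
  irr : ∀ x, ¬ E x x
  tri : ∀ x y z, E x y → E y z → ¬ E z x

structure Or4 {X : Type} (R : (Fin 4 → X) → Prop) : Prop where
  inj : ∀ z, R z → Injective z
  alt : ∀ z, Injective z → ∀ σ : Perm (Fin 4), R (z ∘ σ) ↔ (R z ↔ Perm.sign σ = 1)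

def M4 : MT Prop := fun E R => TF E ∧ Or4 R

theorem pull4 : Pull M4 := fun _ _ _ hβ h =>
  ⟨⟨fun _ _ => h.1.symm _ _, fun _ => h.1.irr _, fun _ _ _ => h.1.tri _ _ _⟩,
    fun _ H => Injective.of_comp (h.2.inj _ H), fun _ hz σ => h.2.alt _ (hβ.comp hz) σ⟩

theorem sg_mul (σ τ : Perm (Fin 4)) :
    Perm.sign (σ * τ) = 1 ↔ (Perm.sign σ = 1 ↔ Perm.sign τ = 1) := by
  rw [map_mul]
  rcases Int.units_eq_one_or (Perm.sign σ) with h | h <;>
    rcases Int.units_eq_one_or (Perm.sign τ) with h' | h' <;> simp [h, h']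

section oe
variable {G X : Type} [Group G] [MulAction G X]

def Ev (G X : Type) [Group G] [MulAction G X] : Prop :=
  ∀ (g : G) (z : Fin 4 → X) (σ : Perm (Fin 4)), Injective z → (∀ i, g • z i = z (σ i)) →
    Perm.sign σ = 1

theorem ev_of (hF : FF (Fin 4) G X) (hT : TT (Fintype.card (Fin 4)) G X)
    (h4 : ∀ g : G, g ^ 4 = 1 → g ^ 2 = 1) : Ev G X := by
  intro g z σ hz h
  have k : ∀ σ : Perm (Fin 4), Perm.sign σ = 1 ∨ (σ ^ 2 = 1 ∧ σ ^ 1 ≠ 1 ∧ ∃ i, σ i = i) ∨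
    (σ ^ 4 = 1 ∧ σ ^ 2 ≠ 1) := by decide +kernel
  have p := pow_eq_one_perm hF hz h
  rcases k σ with e | ⟨e1, e2, i, e3⟩ | ⟨e1, e2⟩
  · exact e
  · exact absurd ((p 2).2 e1) ((hT g (fun e => e2 ((p 1).1 (by simp [e]))) (fin_ord hF hz h)
      (z i) (by rw [h, e3])).2 2 Nat.prime_two (by simp))
  · exact absurd ((p 2).1 (h4 g ((p 4).2 e1))) e2

theorem oe (hE : Ev G X) (D R₀ : (Fin 4 → X) → Prop)
    (h1 : ∀ z (σ : Perm (Fin 4)), D z → D (z ∘ σ))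
    (h2 : ∀ z (σ : Perm (Fin 4)), D z → (R₀ (z ∘ σ) ↔ (R₀ z ↔ Perm.sign σ = 1)))
    (h3 : ∀ z (g : G), D z → D (fun i => g • z i) → (R₀ (fun i => g • z i) ↔ R₀ z)) :
    ∃ R : (Fin 4 → X) → Prop, Or4 R ∧ (∀ (g : G) z, R (fun i => g • z i) ↔ R z) ∧
      ∀ z, Injective z → D z → (R z ↔ R₀ z) := by
  let r : (Fin 4 → X) → (Fin 4 → X) → Prop := fun z w =>
    ∃ (g : G) (σ : Perm (Fin 4)), ∀ i, z i = g • w (σ i)
  have r1 : ∀ z, r z z := fun z => ⟨1, 1, by simp⟩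
  have r2 : ∀ {z w}, r z w → r w z := by
    rintro z w ⟨g, σ, h⟩
    exact ⟨g⁻¹, σ⁻¹, fun i => by simp [h]⟩
  have r3 : ∀ {z w u}, r z w → r w u → r z u := by
    rintro z w u ⟨g, σ, h⟩ ⟨g', σ', h'⟩
    exact ⟨g * g', σ' * σ, fun i => by simp [h, h', mul_smul]⟩
  let s : Setoid (Fin 4 → X) := ⟨r, r1, r2, r3⟩
  have : ∀ q : Quotient s, ∃ w, ⟦w⟧ = q ∧ ∀ u, ⟦u⟧ = q → D u → D w := fun q => by
    by_cases h : ∃ u, ⟦u⟧ = q ∧ D u
    · obtain ⟨u, h1, h2⟩ := h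
      exact ⟨u, h1, fun _ _ _ => h2⟩
    · exact ⟨q.out, q.out_eq, fun u a b => absurd ⟨u, a, b⟩ h⟩
  choose rp hp1 hp2 using this
  have hr : ∀ z, r z (rp ⟦z⟧) := fun z => Quotient.exact (hp1 ⟦z⟧).symm
  have uq : ∀ {z w : Fin 4 → X} {g g' : G} {σ σ' : Perm (Fin 4)}, Injective z →
      (∀ i, z i = g • w (σ i)) → (∀ i, z i = g' • w (σ' i)) →
      (Perm.sign σ = 1 ↔ Perm.sign σ' = 1) := by
    intro z w g g' σ σ' hz a b
    rw [← sg_mul]
    have := hE (g' * g⁻¹) z (σ'⁻¹ * σ) hz (fun i => by rw [a, b]; simp [mul_smul])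
    simpa [mul_comm] using this
  let R : (Fin 4 → X) → Prop := fun z => Injective z ∧ ∃ (g : G) (σ : Perm (Fin 4)),
    (∀ i, z i = g • rp ⟦z⟧ (σ i)) ∧ (Perm.sign σ = 1 ↔ R₀ (rp ⟦z⟧))
  have hR : ∀ {z w : Fin 4 → X} {g : G} {σ : Perm (Fin 4)}, Injective z → rp ⟦z⟧ = w →
      (∀ i, z i = g • w (σ i)) → (R z ↔ (Perm.sign σ = 1 ↔ R₀ w)) := by
    rintro z w g σ hz rfl a
    refine ⟨?_, fun h => ⟨hz, g, σ, a, h⟩⟩
    rintro ⟨-, g', σ', b, h⟩
    rw [uq hz a b, h]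
  refine ⟨R, ⟨fun z h => h.1, fun z hz τ => ?_⟩, fun k z => ?_, fun z hz hD => ?_⟩
  · obtain ⟨g, σ, h⟩ := hr z
    rw [hR hz rfl h, hR (g := g) (σ := σ * τ) (hz.comp τ.injective)
      (congrArg rp (Quotient.sound (⟨1, τ, by simp⟩ : r (z ∘ τ) z))) (fun i => h _), sg_mul]
    tauto
  · by_cases hz : Injective z
    · obtain ⟨g, σ, h⟩ := hr z
      rw [hR hz rfl h, hR (z := fun i => k • z i) (g := k * g) (σ := σ) ((MulAction.injective k).comp hz)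
        (congrArg rp (Quotient.sound (⟨k, 1, by simp⟩ : r (fun i => k • z i) z)))
        (fun i => by rw [mul_smul, ← h])]
    · exact iff_of_false (fun h => hz (Injective.of_comp (f := fun x => k • x) h.1))
        (fun h => hz h.1)
  · obtain ⟨g, σ, h⟩ := hr z
    have hD' := hp2 ⟦z⟧ z rfl hD
    rw [hR hz rfl h]
    have e : z = fun i => g • (rp ⟦z⟧ ∘ σ) i := funext h
    have := h3 _ g (h1 _ σ hD') (e ▸ hD)
    rw [← e, h2 _ σ hD'] at this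
    tauto

end oe

theorem st4 {X Y : Type} {dY : Y → Y → Prop} {RY} {dX : X → X → Prop} {RX} (hY : Or4 RY)
    (hX : Or4 RX) {c : Fin 4 → Y} {a : Fin 4 → X} (hc : Injective c) (ha : Injective a)
    (h : ∀ i j, dY (c i) (c j) = dX (a i) (a j)) (h' : RY c ↔ RX a) : ST dY RY dX RX c a := by
  refine ⟨fun i j => ⟨h i j, hc.eq_iff.trans ha.eq_iff.symm⟩, fun z => ?_⟩
  by_cases hz : Injective z
  · have := hY.alt c hc (ofBijective z (Finite.injective_iff_bijective.1 hz))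
    have := hX.alt a ha (ofBijective z (Finite.injective_iff_bijective.1 hz))
    simp only [coe_ofBijective] at *
    tauto
  · exact iff_of_false (fun h => hz (hY.inj _ h).of_comp) (fun h => hz (hX.inj _ h).of_comp)

def Ba (S : St Prop) : Prop := ∀ Γ : Fin 4 → Fin 4 → Prop, TF Γ → ∃ c : Fin 4 → S.X, Injective c ∧
  (∀ i j, S.d (c i) (c j) = Γ i j) ∧ S.R c ∧ ∀ σ : Perm (Fin 4), Perm.sign σ = 1 →
    (∀ i j, Γ (σ i) (σ j) = Γ i j) → ∃ g : S.G, ∀ i, g • c i = c (σ i)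

theorem Ba.mono {S S'} (f : Hom S S') (h : Ba S) : Ba S' := fun Γ hΓ => by
  obtain ⟨c, h0, h1, h3, h2⟩ := h Γ hΓ
  refine ⟨f.x ∘ c, f.x.injective.comp h0, fun i j => (f.hd _ _).trans (h1 i j), (f.hR c).2 h3,
    fun σ a b => ?_⟩
  obtain ⟨g, hg⟩ := h2 σ a b
  exact ⟨f.g g, fun i => by simp only [comp_apply, ← f.eqv, hg]⟩

def P4 (S : St Prop) : Prop := FF (Fin 4) S.G S.X ∧ TT (Fintype.card (Fin 4)) S.G S.X ∧
  (∀ g : S.G, g ^ 4 = 1 → g ^ 2 = 1) ∧ Inv S ∧ M4 S.d S.R ∧ Ba S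

theorem hb4 (S) (hS : P4 S) (a : Fin 4 → S.X) (ha : Injective a) : Bs P4 S a := by
  have hM := hS.2.2.2.2.1
  have : ∀ a : Fin 4 → S.X, Injective a → S.R a → Bs P4 S a := fun a ha hR => by
    obtain ⟨c, h0, h1, h2, h3⟩ := hS.2.2.2.2.2 _ (pull4 S.d S.R a ha hM).1
    refine ⟨S, Hom.id S, hS, c, st4 hM.2 hM.2 ha h0 (fun i j => (h1 i j).symm)
      (iff_of_true hR h2), fun σ hσ => h3 σ ?_ (fun i j => ?_)⟩
    · exact ((hM.2.alt c h0 σ).1 ((hσ.2 id).1 h2)).1 h2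
    · rw [← h1, ← h1]; exact (hσ.1 i j).1.symm
  by_cases h : S.R a
  · exact this a ha h
  · refine Bs.perm (swap 0 1) (this _ (ha.comp (Equiv.injective _)) ?_)
    rw [hM.2.alt a ha]
    exact iff_of_false h (by decide)

def WG {X : Type} (E : X → X → Prop) (x : X) (m : ℚ) (y : X) : Prop :=
  (m = 0 ∧ x = y) ∨ (m = 1 ∧ E x y) ∨ (m = 2 ∧ ¬ E x y) ∨ (m = 3 ∧ x ≠ y) ∨ 4 ≤ m

theorem isWG {G X : Type} [Group G] [MulAction G X] {E : X → X → Prop} (h : TF E)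
    (hi : ∀ (g : G) x y, E (g • x) (g • y) = E x y) : IsW (G := G) (WG E) where
  nonneg := by intro x m y; unfold WG; grind
  refl x := Or.inl ⟨rfl, rfl⟩
  symm := by
    intro x m y; have := h.symm x y; have := h.symm y x; unfold WG; grind
  trans := by
    intro x m y m' z
    have := h.symm x y; have := h.symm y x; have := h.symm x z; have := h.symm z x
    have := h.symm y z; have := h.symm z y; have := h.tri x y z
    rintro (⟨rfl, a⟩ | ⟨rfl, a⟩ | ⟨rfl, a⟩ | ⟨rfl, a⟩ | a)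
      (⟨rfl, b⟩ | ⟨rfl, b⟩ | ⟨rfl, b⟩ | ⟨rfl, b⟩ | b) <;>
      first | exact Or.inr (Or.inr (Or.inr (Or.inr (by linarith)))) | (unfold WG; grind)
  zero := by intro x y; unfold WG; grind
  inv g := by
    intro x m y
    simp only [WG, hi, Ne, smul_left_cancel_iff]
    exact id

theorem hs4 : HS (Fin 4) P4 := by
  rintro S ⟨hF, hT, h4, hI, hM, hB⟩ a b ha hab hn hfull
  obtain ⟨D, hW, rfl, rfl⟩ := ex_HD hF (isWG hM.1 hI.1) ha (hab.inj ha)
    (fun i j m => by simp only [WG, (hab.1 i j).1, Ne, (hab.1 i j).2]) hn hfull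
  have w := D.isW1
  have := D.cG
  have := D.cX
  have F1 := D.FF1 hF hT
  have T1 := D.TT1 hF hT
  have N1 : ∀ g : D.G1, g ^ 4 = 1 → g ^ 2 = 1 := fun g hg => by
    obtain ⟨γ, h, -, -, e⟩ := D.tors g (isOfFinOrder_iff_pow_eq_one.2 ⟨4, by norm_num, hg⟩)
    exact (e 2).2 (h4 h ((e 4).1 hg))
  have hj : ∀ w, (∃ w', D.j ∘ w = D.j ∘ w' ∧ S.R w') ↔ S.R w := fun w =>
    ⟨fun ⟨w', e, h⟩ => (D.j_inj.comp_left e) ▸ h, fun h => ⟨w, rfl, h⟩⟩
  obtain ⟨R, r1, r2, r3⟩ := oe (ev_of F1 T1 N1) (fun z => ∃ w, Injective w ∧ z = D.j ∘ w)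
    (fun z => ∃ w, z = D.j ∘ w ∧ S.R w) (by
      rintro _ σ ⟨w, hw, rfl⟩
      exact ⟨w ∘ σ, hw.comp σ.injective, rfl⟩) (by
      rintro _ σ ⟨w, hw, rfl⟩
      rw [hj]; exact (hj (w ∘ σ)).trans (hM.2.alt w hw σ)) (by
      rintro _ g ⟨w, hw, rfl⟩ ⟨w', -, e⟩
      rw [e, hj, hj]
      exact D.tup S.R hI.2 (fun σ => hab.2 σ) g w' w (congrFun e))
  have cl : ∀ z m, D.W1 z m z → ∃ x, WG S.d x m x := fun z m h => by
    obtain ⟨g, x, rfl⟩ := D.ex_mk z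
    have := w.inv g⁻¹ h
    rw [← D.smul_j, inv_smul_smul, D.W1_j, hW] at this
    exact ⟨x, this⟩
  let S' : St Prop := { G := D.G1, X := D.X1, d := fun x y => D.W1 x 1 y, R := R }
  let f : Hom S S' := ⟨HNNExtension.of, ⟨D.j, D.j_inj⟩, fun g x => (D.of_j g x).symm,
    fun x y => propext (by
      show D.W1 (D.j x) 1 (D.j y) ↔ _
      rw [D.W1_j, hW]; unfold WG; grind), fun z => by
      show R (D.j ∘ z) ↔ _
      by_cases hz : Injective z
      · rw [r3 _ (D.j_inj.comp hz) ⟨z, hz, rfl⟩, hj]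
      · exact iff_of_false (fun h => hz (r1.inj _ h).of_comp) (fun h => hz (hM.2.inj _ h))⟩
  refine ⟨S', f, ⟨F1, T1, N1, ⟨fun g x y => propext ⟨fun h => ?_, w.inv g⟩, r2⟩,
    ⟨⟨fun x y => w.symm, fun x h => ?_, fun x y z a b c => ?_⟩, r1⟩, hB.mono f⟩,
    _, fun i => D.t_j 1 i⟩
  · simpa using w.inv g⁻¹ h
  · obtain ⟨x, hx⟩ := cl _ _ h
    have := hM.1.irr x
    unfold WG at hx; grind
  · obtain ⟨x, hx⟩ := cl _ _ (w.trans (w.trans a b) c)
    unfold WG at hx; grind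

theorem hn4 (S) (hS : P4 S) (m d' R') (a : Fin m → S.X) :
    ∃ S', ∃ f : Hom S S', P4 S' ∧ ExtG M4 S'.d S'.R d' R' (f.x ∘ a) := by
  by_cases H : M4 d' R' ∧ ST d' R' S.d S.R some a
  swap
  · exact ⟨S, Hom.id S, hS, fun k1 k2 => absurd ⟨k1, k2⟩ H⟩
  obtain ⟨H1, H2⟩ := H
  obtain ⟨hF, hT, h4, hI, hM, hB⟩ := hS
  have ha : Injective a := H2.inj (Option.some_injective _)
  let α : Option (Fin m) → S.X ⊕ S.G := fun o => o.elim (.inr 1) (Sum.inl ∘ a)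
  have hα : Injective α := by
    rintro (_ | i) (_ | j) e <;> simp_all [α, ha.eq_iff]
  let R₀ : (Fin 4 → S.X ⊕ S.G) → Prop := fun z =>
    (∃ w, z = Sum.inl ∘ w ∧ S.R w) ∨ ∃ v, z = α ∘ v ∧ R' v
  have ov : ∀ w v, Sum.inl ∘ w = α ∘ v → (S.R w ↔ R' v) := fun w v e => by
    have : ∀ i, ∃ j, v i = some j ∧ w i = a j := fun i => by
      have := congrFun e i
      simp only [comp_apply] at this
      rcases h : v i with _ | j <;> simp_all [α]
    choose u h1 h2 using this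
    rw [show v = some ∘ u from funext h1, show w = a ∘ u from funext h2, H2.2]
  have j1 : ∀ w, R₀ (Sum.inl ∘ w) ↔ S.R w := fun w => ⟨by
    rintro (⟨w', e, h⟩ | ⟨v, e, h⟩)
    · rwa [Sum.inl_injective.comp_left e]
    · exact (ov w v e).2 h, fun h => Or.inl ⟨w, rfl, h⟩⟩
  have j2 : ∀ v, R₀ (α ∘ v) ↔ R' v := fun v => ⟨by
    rintro (⟨w', e, h⟩ | ⟨v', e, h⟩)
    · exact (ov w' v e.symm).1 h
    · rwa [hα.comp_left e], fun h => Or.inr ⟨v, rfl, h⟩⟩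
  obtain ⟨R, r1, r2, r3⟩ := oe (ev_of hF.sum hT.sum h4)
    (fun z => Injective z ∧ ((∃ w, z = Sum.inl ∘ w) ∨ ∃ v, z = α ∘ v)) R₀ (by
      rintro _ σ ⟨hz, ⟨w, rfl⟩ | ⟨v, rfl⟩⟩
      · exact ⟨hz.comp σ.injective, Or.inl ⟨w ∘ σ, rfl⟩⟩
      · exact ⟨hz.comp σ.injective, Or.inr ⟨v ∘ σ, rfl⟩⟩) (by
      rintro _ σ ⟨hz, ⟨w, rfl⟩ | ⟨v, rfl⟩⟩
      · rw [j1]; exact (j1 (w ∘ σ)).trans (hM.2.alt w hz.of_comp σ)
      · rw [j2]; exact (j2 (v ∘ σ)).trans (H1.2.alt v hz.of_comp σ)) (by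
      rintro z g hz hz'
      by_cases h : ∃ w, z = Sum.inl ∘ w
      · obtain ⟨w, rfl⟩ := h
        rw [j1]; exact (j1 (fun i => g • w i)).trans (hI.2 g w)
      · obtain ⟨v, rfl⟩ := hz.2.resolve_left h
        have : ∃ i, v i = none := by
          by_contra hn
          push Not at hn
          choose u hu using fun i => Option.ne_none_iff_exists'.1 (hn i)
          exact h ⟨a ∘ u, funext fun i => by simp [α, hu]⟩
        obtain ⟨i, hi⟩ := this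
        obtain rfl : g = 1 := by
          rcases hz'.2 with ⟨w, e⟩ | ⟨w, e⟩
          · simpa [α, hi] using congrFun e i
          · have := congrFun e i
            simp only [comp_apply] at this
            rcases h : w i with _ | j <;> simp_all [α]
        simp only [one_smul])
  let E : S.X ⊕ S.G → S.X ⊕ S.G → Prop := fun z w => match z, w with
    | .inl x, .inl y => S.d x y
    | .inl x, .inr g => ∃ i, d' none (some i) ∧ x = g • a i
    | .inr g, .inl x => ∃ i, d' none (some i) ∧ x = g • a i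
    | .inr _, .inr _ => False
  have key : ∀ (g : S.G) i j, d' none (some i) → d' none (some j) → ¬ S.d (g • a i) (g • a j) :=
    fun g i j h1 h2 h3 => by
      rw [hI.1, ← (H2.1 i j).1] at h3
      exact H1.1.tri _ _ _ h1 h3 (H1.1.symm _ _ h2)
  have hE : TF E := ⟨by
      rintro (x | g) (y | g') h
      · exact hM.1.symm _ _ h
      all_goals exact h, by
      rintro (x | g) h
      · exact hM.1.irr _ h
      · exact h, by
      rintro (x | g) (y | g') (z | g'') h1 h2 h3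
      · exact hM.1.tri _ _ _ h1 h2 h3
      · obtain ⟨i, a1, rfl⟩ := h2
        obtain ⟨j, a2, rfl⟩ := h3
        exact key _ _ _ a2 a1 h1
      · obtain ⟨i, a1, rfl⟩ := h1
        obtain ⟨j, a2, rfl⟩ := h2
        exact key _ _ _ a2 a1 h3
      · exact h2
      · obtain ⟨i, a1, rfl⟩ := h1
        obtain ⟨j, a2, rfl⟩ := h3
        exact key _ _ _ a1 a2 h2
      · exact h3
      · exact h1
      · exact h1⟩
  let f := sumHom S E R (fun _ _ => rfl) (fun z => by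
    by_cases hz : Injective z
    · rw [r3 _ (Sum.inl_injective.comp hz) ⟨Sum.inl_injective.comp hz, Or.inl ⟨z, rfl⟩⟩, j1]
    · exact iff_of_false (fun h => hz (r1.inj _ h).of_comp) (fun h => hz (hM.2.inj _ h)))
  have e0 : ∀ i, (∃ j, d' none (some j) ∧ a i = (1 : S.G) • a j) = d' none (some i) := fun i => by
    simp [ha.eq_iff]
  refine ⟨_, f, ⟨hF.sum, hT.sum, h4, ⟨?_, r2⟩, ⟨hE, r1⟩, hB.mono f⟩, fun _ _ => ⟨.inr 1,
    fun i j => ⟨?_, hα.eq_iff.symm⟩, fun z => ?_⟩⟩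
  · rintro (u : S.G) (x | g) (y | g')
    · exact hI.1 u x y
    · show (∃ i, _ ∧ u • x = (u * g') • a i) = ∃ i, _
      simp only [mul_smul, smul_left_cancel_iff]
    · show (∃ i, _ ∧ u • y = (u * g) • a i) = ∃ i, _
      simp only [mul_smul, smul_left_cancel_iff]
    · rfl
  · rcases i with _ | i <;> rcases j with _ | j
    · exact eq_false (H1.1.irr _)
    · exact (e0 j).symm
    · exact (propext ⟨H1.1.symm _ _, H1.1.symm _ _⟩).trans (e0 i).symm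
    · exact (H2.1 i j).1
  · show R' z ↔ R (α ∘ z)
    by_cases hz : Injective z
    · rw [r3 _ (hα.comp hz) ⟨hα.comp hz, Or.inr ⟨z, rfl⟩⟩, j2]
    · exact iff_of_false (fun h => hz (H1.2.inj _ h)) (fun h => hz (r1.inj _ h).of_comp)

end Pool.Agent.H.MP_0dd7b8_al
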