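import Mathlib
import Pool.Agent.H.MP_0dd7b8_al.A

namespace Pool.Agent.H.MP_0dd7b8_al

open Function Pool.Agent.H.MP_5b0e2c_al Equiv

abbrev A4 : Type := alternatingGroup (Fin 4)

def Q : Type := (Fin 4 → Fin 4 → Prop) × Fin 4

instance : Countable Q := inferInstanceAs (Countable (_ × _))

instance : MulAction A4 Q where
  smul g p := (fun i j => p.1 (g⁻¹ • i) (g⁻¹ • j), g • p.2)
  one_smul p := by
    show ((fun i j => _), _) = p
    simp only [inv_one, one_smul]; rfl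
  mul_smul g h p := by
    show ((fun i j => _), _) = ((fun i j => p.1 (h⁻¹ • g⁻¹ • i) (h⁻¹ • g⁻¹ • j)), g • h • p.2)
    simp only [mul_inv_rev, mul_smul]

def Fr (p : Q) : Prop := ∀ g : A4, g • p = p → g = 1

theorem Fr.smul (h : A4) {p : Q} (hp : Fr p) : Fr (h • p) := fun g e => by
  have := hp (h⁻¹ * g * h) (by rw [mul_smul, mul_smul, e, inv_smul_smul])
  simpa [mul_assoc] using congrArg (fun x => h * x * h⁻¹) this

def Pt : SubMulAction A4 Q := ⟨{p | Fr p}, fun h _ hp => hp.smul h⟩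

abbrev X0 : Type := Fin 4 ⊕ Pt

open Classical in
noncomputable def be (p : Q) : X0 := if h : Fr p then .inr ⟨p, h⟩ else .inl p.2

theorem be_smul (g : A4) (p : Q) : be (g • p) = g • be p := by
  unfold be
  by_cases h : Fr p
  · rw [dif_pos h, dif_pos (h.smul g)]; rfl
  · rw [dif_neg h, dif_neg (fun h' => h (by simpa using h'.smul g⁻¹))]; rfl

def lb : X0 → Fin 4 := Sum.elim id (fun p => p.1.2)

theorem lb_be (p : Q) : lb (be p) = p.2 := by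
  unfold be; split_ifs <;> rfl

theorem lb_smul (g : A4) (x : X0) : lb (g • x) = g • lb x := by cases x <;> rfl

theorem be_eq {p q : Q} (e : be p = be q) : p.2 = q.2 ∧ (Fr p ∨ Fr q → p = q) := by
  refine ⟨by rw [← lb_be, e, lb_be], ?_⟩
  unfold be at e
  split_ifs at e with h1 h2 h3
  · intro _; exact congrArg Subtype.val (Sum.inr_injective e)
  · tauto

theorem be_fr {p q : Q} (e : be p = be q) (h : Fr p) : Fr q := (be_eq e).2 (Or.inl h) ▸ h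

theorem k1 {Γ : Fin 4 → Fin 4 → Prop} (h : TF Γ) {i j} (e : Γ i j) : Fr (Γ, i) ∨ Fr (Γ, j) := by
  by_contra hn
  simp only [Fr] at hn
  push Not at hn
  obtain ⟨⟨g, g1, g2⟩, k, k1, k2⟩ := hn
  have au : ∀ {g : A4} {i}, g • (show Q from (Γ, i)) = (Γ, i) →
      g.1 i = i ∧ ∀ x y, Γ x y → Γ (g.1 x) (g.1 y) := fun {g i} e =>
    ⟨congrArg Prod.snd e, fun x y h => by
      have := congrFun (congrFun (congrArg Prod.fst e) (g • x)) (g • y)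
      have this : Γ (g⁻¹ • g • x) (g⁻¹ • g • y) = Γ (g.1 x) (g.1 y) := this
      rw [inv_smul_smul, inv_smul_smul] at this
      exact this ▸ h⟩
  have d1 : ∀ g : Perm (Fin 4), Perm.sign g = 1 → g ≠ 1 → ∀ i j, g i = i → g j = j → i = j := by
    decide +kernel
  have d2 : ∀ k : Perm (Fin 4), Perm.sign k = 1 ∧ k ≠ 1 → ∀ i j l, k j = j ∧ i ≠ j ∧ l ≠ j ∧ l ≠ i →
    l = k i ∨ l = k (k i) := by decide +kernel
  have d : ∀ g k : Perm (Fin 4), Perm.sign g = 1 → Perm.sign k = 1 → g ≠ 1 → k ≠ 1 →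
      ∀ i j, i ≠ j → g i = i → k j = j → g j = k i ∨ g j = k (k i) :=
    fun g k a1 a2 a3 a4 i j a5 a6 a7 => d2 k ⟨a2, a4⟩ i j _ ⟨a7, a5,
      fun e => a5 (d1 g a1 a3 i j a6 e), fun e => a5 (g.injective (a6.trans e.symm))⟩
  obtain ⟨a1, a2⟩ := au g1
  obtain ⟨b1, b2⟩ := au k1
  have c1 := a2 _ _ e
  have c2 := b2 _ _ e
  have c3 := b2 _ _ c2
  rw [a1] at c1
  rw [b1] at c2
  rw [b1, b1] at c3
  rcases d g k g.2 k.2 (fun e => g2 (Subtype.ext e)) (fun e => k2 (Subtype.ext e)) i j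
    (by rintro rfl; exact h.irr _ e) a1 b1 with f | f
  · exact h.tri _ _ _ c1 (f ▸ c2) (h.symm _ _ e)
  · exact h.tri _ _ _ c1 (f ▸ c3) (h.symm _ _ e)

def E0 (x y : X0) : Prop := ∃ Γ, TF Γ ∧ ∃ i j, Γ i j ∧ x = be (Γ, i) ∧ y = be (Γ, j)

theorem k3 {Γ : Fin 4 → Fin 4 → Prop} (h : TF Γ) (i j) :
    E0 (be (Γ, i)) (be (Γ, j)) = Γ i j := by
  refine propext ⟨?_, fun e => ⟨Γ, h, i, j, e, rfl, rfl⟩⟩
  rintro ⟨Γ', h', i', j', e, e1, e2⟩
  obtain rfl : i = i' := (be_eq e1).1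
  obtain rfl : j = j' := (be_eq e2).1
  rcases k1 h' e with f | f
  · obtain rfl : Γ = Γ' := congrArg Prod.fst ((be_eq e1).2 (Or.inr f))
    exact e
  · obtain rfl : Γ = Γ' := congrArg Prod.fst ((be_eq e2).2 (Or.inr f))
    exact e

theorem tf0 : TF E0 where
  symm := by
    rintro _ _ ⟨Γ, h, i, j, e, rfl, rfl⟩
    exact ⟨Γ, h, j, i, h.symm _ _ e, rfl, rfl⟩
  irr := by
    rintro _ ⟨Γ, h, i, j, e, rfl, e2⟩
    obtain rfl : i = j := (be_eq e2).1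
    exact h.irr _ e
  tri := by
    rintro _ _ _ ⟨Γ, h, i, j, e, rfl, rfl⟩ ⟨Γ2, h2, j', k, e2, a1, rfl⟩ ⟨Γ3, h3, k', i', e3, a2, a3⟩
    obtain rfl : j = j' := (be_eq a1).1
    obtain rfl : k = k' := (be_eq a2).1
    obtain rfl : i = i' := (be_eq a3).1
    have b1 : Fr (Γ, j) ∨ Fr (Γ2, j) → Γ = Γ2 := fun f => congrArg Prod.fst ((be_eq a1).2 f)
    have b2 : Fr (Γ2, k) ∨ Fr (Γ3, k) → Γ2 = Γ3 := fun f => congrArg Prod.fst ((be_eq a2).2 f)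
    have b3 : Fr (Γ, i) ∨ Fr (Γ3, i) → Γ = Γ3 := fun f => congrArg Prod.fst ((be_eq a3).2 f)
    have c1 := k1 h e
    have c2 := k1 h2 e2
    have c3 := k1 h3 e3
    have : Γ = Γ2 ∧ Γ = Γ3 := by grind
    obtain ⟨rfl, rfl⟩ := this
    exact h.tri _ _ _ e e2 e3

theorem e0_smul (g : A4) {x y} (h : E0 x y) : E0 (g • x) (g • y) := by
  obtain ⟨Γ, h, i, j, e, rfl, rfl⟩ := h
  exact ⟨fun i j => Γ (g⁻¹ • i) (g⁻¹ • j), ⟨fun _ _ => h.symm _ _, fun _ => h.irr _,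
    fun _ _ _ => h.tri _ _ _⟩, g • i, g • j, by simpa using e, (be_smul g _).symm, (be_smul g _).symm⟩

theorem fix0 {g : A4} (h1 : g ≠ 1) {x : X0} (h : g • x = x) : ∃ i, x = .inl i ∧ g.1 i = i := by
  rcases x with i | p
  · exact ⟨i, rfl, Sum.inl_injective h⟩
  · exact absurd (p.2 g (congrArg Subtype.val (Sum.inr_injective h))) h1

theorem uq0 {g : A4} (h1 : g ≠ 1) {x y : X0} (h : g • x = x) (h' : g • y = y) :
    y = x ∧ g ^ 2 ≠ 1 := by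
  have d : ∀ g : Perm (Fin 4), Perm.sign g = 1 → g ≠ 1 → ∀ i j, g i = i → g j = j →
    j = i ∧ g ^ 2 ≠ 1 := by decide +kernel
  obtain ⟨i, rfl, hi⟩ := fix0 h1 h
  obtain ⟨j, rfl, hj⟩ := fix0 h1 h'
  obtain ⟨rfl, e⟩ := d g g.2 (fun e => h1 (Subtype.ext e)) i j hi hj
  exact ⟨rfl, fun e' => e (congrArg Subtype.val e')⟩

theorem ex_init : ∃ S, P4 S := by
  have hF : FF (Fin 4) A4 X0 := fun g z hz h => by_contra fun h1 =>
    absurd (hz (uq0 h1 (h 0) (h 1)).1) (by decide)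
  have hT : TT (Fintype.card (Fin 4)) A4 X0 := fun g h1 _ x hx =>
    ⟨fun y hy => (uq0 h1 hx hy).1, fun l hl hd => by
      obtain rfl : l = 2 := (Nat.prime_dvd_prime_iff_eq hl Nat.prime_two).1
        (hl.dvd_of_dvd_pow (n := 2) (by simpa using hd))
      exact (uq0 h1 hx hx).2⟩
  have h4 : ∀ g : A4, g ^ 4 = 1 → g ^ 2 = 1 := fun g h => by
    have d : ∀ g : Perm (Fin 4), Perm.sign g = 1 → g ^ 4 = 1 → g ^ 2 = 1 := by decide +kernel
    exact Subtype.ext (d g g.2 (congrArg Subtype.val h))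
  have j : ∀ (z : Fin 4 → X0) (π : Perm (Fin 4)), lb ∘ z = π →
      ((∃ σ : Perm (Fin 4), Perm.sign σ = 1 ∧ lb ∘ z = σ) ↔ Perm.sign π = 1) := fun z π e =>
    ⟨fun ⟨σ, h, e'⟩ => by rwa [DFunLike.coe_injective (e.symm.trans e')], fun h => ⟨π, h, e⟩⟩
  obtain ⟨R, r1, r2, r3⟩ := oe (ev_of hF hT h4) (fun z => ∃ π : Perm (Fin 4), lb ∘ z = π)
    (fun z => ∃ σ : Perm (Fin 4), Perm.sign σ = 1 ∧ lb ∘ z = σ) (by
      rintro z σ ⟨π, e⟩
      exact ⟨π * σ, congrArg (· ∘ σ) e⟩) (by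
      rintro z σ ⟨π, e⟩
      rw [j z π e, j (z ∘ σ) (π * σ) (congrArg (· ∘ σ) e), sg_mul]) (by
      rintro z g ⟨π, e⟩ -
      rw [j z π e, j _ (g.1 * π) (funext fun i => (lb_smul g _).trans
        (congrArg g.1 (congrFun e i))), sg_mul]
      have : Perm.sign g.1 = 1 := g.2
      tauto)
  refine ⟨{ G := A4, X := X0, d := E0, R := R }, hF, hT, h4,
    ⟨fun g x y => propext ⟨fun h => ?_, e0_smul g⟩, r2⟩, ⟨tf0, r1⟩, fun Γ hΓ => ?_⟩
  · simpa using e0_smul g⁻¹ h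
  · have hc : Injective (fun i => be (Γ, i)) := fun i j e => (be_eq e).1
    have e : lb ∘ (fun i => be (Γ, i)) = (1 : Perm (Fin 4)) := funext fun i => lb_be _
    refine ⟨fun i => be (Γ, i), hc, k3 hΓ, (r3 _ hc ⟨1, e⟩).2 ⟨1, by simp, e⟩, fun σ h1 h2 =>
      ⟨⟨σ, h1⟩, fun i => (be_smul _ _).symm.trans (congrArg be (Prod.ext ?_ rfl))⟩⟩
    funext x y
    show Γ (σ⁻¹ x) (σ⁻¹ y) = Γ x y
    rw [← h2]; simp

theorem main : ∃ L : St Prop, Inv L ∧ M4 L.d L.R ∧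
    (∀ m d' R' (a : Fin m → L.X), ExtG M4 L.d L.R d' R' a) ∧
    ∀ a b : Fin 4 → L.X, Injective a → ST L.d L.R L.d L.R a b → ∃! g : L.G, ∀ i, g • a i = b i := by
  obtain ⟨S₀, h₀⟩ := ex_init
  obtain ⟨L, h1, h2, h3, h4⟩ := build (Mod := M4) (fun S hS => hS.2.2.2.1) (fun S hS => hS.1)
    hs4 hb4 hn4 S₀ h₀
  refine ⟨L, h1, ⟨⟨fun x y => ?_, fun x => ?_, fun x y z => ?_⟩, fun z => ?_, fun z => ?_⟩, h2, h4⟩
  · obtain ⟨S, hS, f, w, e⟩ := h3 _ ![x, y]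
    obtain rfl : f.x (w 0) = x := congrFun e 0
    obtain rfl : f.x (w 1) = y := congrFun e 1
    rw [f.hd, f.hd]
    exact hS.2.2.2.2.1.1.symm _ _
  · obtain ⟨S, hS, f, w, e⟩ := h3 _ ![x]
    obtain rfl : f.x (w 0) = x := congrFun e 0
    rw [f.hd]
    exact hS.2.2.2.2.1.1.irr _
  · obtain ⟨S, hS, f, w, e⟩ := h3 _ ![x, y, z]
    obtain rfl : f.x (w 0) = x := congrFun e 0
    obtain rfl : f.x (w 1) = y := congrFun e 1
    obtain rfl : f.x (w 2) = z := congrFun e 2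
    rw [f.hd, f.hd, f.hd]
    exact hS.2.2.2.2.1.1.tri _ _ _
  · obtain ⟨S, hS, f, w, rfl⟩ := h3 _ z
    exact fun h => f.x.injective.comp (hS.2.2.2.2.1.2.inj _ ((f.hR w).1 h))
  · obtain ⟨S, hS, f, w, rfl⟩ := h3 _ z
    intro hz σ
    rw [f.hR]
    exact (f.hR (w ∘ σ)).trans (hS.2.2.2.2.1.2.alt w hz.of_comp σ)

end Pool.Agent.H.MP_0dd7b8_al
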